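import Pool.Agent.H787.SP.Main
import Pool.Agent.H787.SP.Ric
import Pool.Agent.H787.SP.Scal
import Pool.Agent.H787.SP.G2T

/-!
# MP_64d93e_gt: solvsolitons attain the supremum of the Ricci pinching functional

We answer Q1 affirmatively: if `μ` is a (not necessarily unimodular) solvable Lie bracket on `ℝ⁷`
for which `φ` is closed, then every solvsoliton `lam` in `(GL₇·μ ∩ S_closed) \ S_tf` satisfies
`F(lam) = N_μ` (the supremum is a maximum), and moreover `F(lam) = M_μ`, the supremum over all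
left invariant metrics.

## Idea of the proof

Let `Ric = -g + D` be the Ricci operator of the solvsoliton, `H` its mean curvature vector and
`R = sym(ad H)`. Using the real parts of the eigenvalues of the derivation `D + ad H`, and a
uniqueness argument for the optimal filtration compatible with the bracket, one shows that
`D₁ = D + R` is a derivation with nonnegative eigenvalues. For another metric `h·lam`, put `h` in
block triangular form with respect to `D₁` and compare the Ricci operator of `h·lam` with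
`-g + D₁ - g P`, where `P` is the orthogonal projection of the identity on `{sym(ad x)}`. The
inequality `|P| ≤ |R| / g` comes from Lie's theorem. For closed `G₂`-structures Bryant's formula
`scal = -|d∗φ|²/2` shows that a solvsoliton which is not torsion free is not Ricci flat.

## Conventions

* A bracket on `ℝⁿ` is given by its structure constants: `μ i j k` is the coefficient of `e_k`
  in `μ(e_i,e_j)`; indices run over `Fin n`, so that `e_1,…,e_7` of the problem file are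
  `e_0,…,e_6` here. The inner product makes `e_i` orthonormal.
* The Levi-Civita connection of the left invariant metric is given by the Koszul formula, and the
  Ricci operator is computed from its curvature tensor.
* `φ` and `∗φ` are given by their components on basis vectors, and `d_μ` is the
  Chevalley-Eilenberg differential.
-/

set_option autoImplicit false
set_option maxRecDepth 100000

namespace Pool.Agent.Results.MP_64d93e_gt.SolvsolitonsAttainSup

open Matrix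

/-- A bilinear map `ℝⁿ × ℝⁿ → ℝⁿ` given by structure constants: `μ i j k` is the coefficient of
`e_k` in `μ(e_i, e_j)`. -/
abbrev Bracket (n : ℕ) := Fin n → Fin n → Fin n → ℝ

/-- `μ(x, y)` -/
noncomputable def br {n : ℕ} (μ : Bracket n) (x y : Fin n → ℝ) : Fin n → ℝ :=
  fun k => ∑ i, ∑ j, x i * y j * μ i j k

/-- `μ` is a Lie bracket: antisymmetry and the Jacobi identity -/
structure IsLie {n : ℕ} (μ : Bracket n) : Prop where
  skew : ∀ x y, br μ x y = -br μ y x
  jacobi : ∀ x y z, br μ (br μ x y) z + br μ (br μ y z) x + br μ (br μ z x) y = 0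

/-- the derived series of `(ℝⁿ, μ)` -/
noncomputable def derSeries {n : ℕ} (μ : Bracket n) : ℕ → Submodule ℝ (Fin n → ℝ)
  | 0 => ⊤
  | k + 1 => Submodule.span ℝ {z | ∃ x ∈ derSeries μ k, ∃ y ∈ derSeries μ k, z = br μ x y}

/-- `μ ∈ 𝒮`: `μ` is a solvable Lie bracket -/
structure IsSolv {n : ℕ} (μ : Bracket n) : Prop where
  lie : IsLie μ
  solvable : ∃ k, derSeries μ k = ⊥

/-- the action `h·μ = h μ(h⁻¹·, h⁻¹·)` of `GL_n(ℝ)` -/
noncomputable def glAct {n : ℕ} (h : GL (Fin n) ℝ) (μ : Bracket n) : Bracket n :=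
  fun i j => (h : Matrix (Fin n) (Fin n) ℝ) *ᵥ
    br μ (((h⁻¹ : GL (Fin n) ℝ) : Matrix (Fin n) (Fin n) ℝ) *ᵥ Pi.single i 1)
      (((h⁻¹ : GL (Fin n) ℝ) : Matrix (Fin n) (Fin n) ℝ) *ᵥ Pi.single j 1)

/-- the orbit `GL_n(ℝ)·μ`, i.e. all left invariant metrics on the Lie group `S_μ` -/
def Orbit {n : ℕ} (μ : Bracket n) : Set (Bracket n) := {ν | ∃ h : GL (Fin n) ℝ, ν = glAct h μ}

/-- Koszul formula: `⟨∇_{e_i} e_j, e_k⟩` for the left invariant metric with orthonormal basis `e_i` -/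
noncomputable def nabla {n : ℕ} (μ : Bracket n) (i j k : Fin n) : ℝ :=
  (μ i j k - μ j k i + μ k i j) / 2

/-- `⟨R(e_i,e_j)e_k, e_l⟩` with `R(x,y)z = ∇_x ∇_y z - ∇_y ∇_x z - ∇_[x,y] z` -/
noncomputable def riem {n : ℕ} (μ : Bracket n) (i j k l : Fin n) : ℝ :=
  ∑ m, (nabla μ j k m * nabla μ i m l - nabla μ i k m * nabla μ j m l - μ i j m * nabla μ m k l)

/-- the Ricci operator: `⟨Ric e_j, e_k⟩ = Σ_i ⟨R(e_i,e_j)e_k, e_i⟩` -/
noncomputable def Ric {n : ℕ} (μ : Bracket n) : Matrix (Fin n) (Fin n) ℝ :=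
  fun j k => ∑ i, riem μ i j k i

/-- scalar curvature -/
noncomputable def scal {n : ℕ} (μ : Bracket n) : ℝ := (Ric μ).trace

/-- the Ricci pinching functional `F = scal² / |Ric|²` -/
noncomputable def F {n : ℕ} (μ : Bracket n) : ℝ := (scal μ) ^ 2 / ∑ j, ∑ k, (Ric μ j k) ^ 2

/-- `D` is a derivation of `(ℝⁿ, μ)` -/
def IsDerivation {n : ℕ} (D : Matrix (Fin n) (Fin n) ℝ) (μ : Bracket n) : Prop :=
  ∀ x y, D *ᵥ br μ x y = br μ (D *ᵥ x) y + br μ x (D *ᵥ y)

/-- solvsoliton: solvable and `Ric = c I + D` with `c ∈ ℝ` and `D` a derivation -/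
def IsSolvsoliton {n : ℕ} (μ : Bracket n) : Prop :=
  IsSolv μ ∧ ∃ (c : ℝ) (D : Matrix (Fin n) (Fin n) ℝ), IsDerivation D μ ∧
    Ric μ = c • (1 : Matrix (Fin n) (Fin n) ℝ) + D

/-! ### The `G₂`-structure -/

/-- Kronecker delta -/
def dl (i j : Fin 7) : ℤ := if i = j then 1 else 0

/-- `e^{ab}(e_i,e_j)` -/
def w2 (a b i j : Fin 7) : ℤ := dl a i * dl b j - dl a j * dl b i

/-- `e^{abc}(e_i,e_j,e_k)` (cofactor expansion of the determinant) -/
def w3 (a b c i j k : Fin 7) : ℤ :=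
  dl a i * w2 b c j k - dl a j * w2 b c i k + dl a k * w2 b c i j

/-- `e^{abcd}(e_i,e_j,e_k,e_l)` -/
def w4 (a b c d i j k l : Fin 7) : ℤ :=
  dl a i * w3 b c d j k l - dl a j * w3 b c d i k l + dl a k * w3 b c d i j l
    - dl a l * w3 b c d i j k

/-- `φ = e^{127}+e^{347}+e^{567}+e^{135}-e^{146}-e^{236}-e^{245}` (here with indices from `0`) -/
def phi (i j k : Fin 7) : ℤ :=
  w3 0 1 6 i j k + w3 2 3 6 i j k + w3 4 5 6 i j k + w3 0 2 4 i j k
    - w3 0 3 5 i j k - w3 1 2 5 i j k - w3 1 3 4 i j k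

/-- the Hodge dual
`∗φ = e^{3456}+e^{1256}+e^{1234}-e^{2467}+e^{2357}+e^{1457}+e^{1367}` (indices from `0`);
see `psi_eq_star` -/
def psi (i j k l : Fin 7) : ℤ :=
  w4 2 3 4 5 i j k l + w4 0 1 4 5 i j k l + w4 0 1 2 3 i j k l - w4 1 3 5 6 i j k l
    + w4 1 2 4 6 i j k l + w4 0 3 4 6 i j k l + w4 0 2 5 6 i j k l

/-- the sign of the sequence `x 0, …, x 6` -/
def eps (x : Fin 7 → Fin 7) : ℤ :=
  ∏ p, ∏ q, if p < q then (if x p < x q then 1 else if x q < x p then -1 else 0) else 1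

/-- the Hodge star `(∗α)_{ijkl} = Σ_{a<b<c} α_{abc} ε_{abcijkl}` -/
def hstar (α : Fin 7 → Fin 7 → Fin 7 → ℤ) (i j k l : Fin 7) : ℤ :=
  ∑ a, ∑ b, ∑ c, if a < b ∧ b < c then α a b c * eps ![a, b, c, i, j, k, l] else 0

/-- `psi` is the Hodge dual of `phi` -/
theorem psi_eq_star : ∀ i j k l : Fin 7, i < j → j < k → k < l → psi i j k l = hstar phi i j k l := by
  decide +kernel

/-- `(d_μ α)(e_i,e_j,e_k,e_l)` for a 3-form `α`: the Chevalley-Eilenberg formula
`dα(x_0,…,x_3) = Σ_{s<t} (-1)^{s+t} α(μ(x_s,x_t), …)` -/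
noncomputable def d3 (μ : Bracket 7) (α : Fin 7 → Fin 7 → Fin 7 → ℝ) (i j k l : Fin 7) : ℝ :=
  ∑ m, (-(μ i j m * α m k l) + μ i k m * α m j l - μ i l m * α m j k
    - μ j k m * α m i l + μ j l m * α m i k - μ k l m * α m i j)

/-- `(d_μ α)(e_i,e_j,e_k,e_l,e_p)` for a 4-form `α` -/
noncomputable def d4 (μ : Bracket 7) (α : Fin 7 → Fin 7 → Fin 7 → Fin 7 → ℝ)
    (i j k l p : Fin 7) : ℝ :=
  ∑ m, (-(μ i j m * α m k l p) + μ i k m * α m j l p - μ i l m * α m j k p + μ i p m * α m j k l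
    - μ j k m * α m i l p + μ j l m * α m i k p - μ j p m * α m i k l
    - μ k l m * α m i j p + μ k p m * α m i j l - μ l p m * α m i j k)

/-- `𝒮_closed`: solvable Lie brackets on `ℝ⁷` with `d_μ φ = 0` -/
def Sclosed : Set (Bracket 7) :=
  {μ | IsSolv μ ∧ ∀ i j k l, d3 μ (fun a b c => (phi a b c : ℝ)) i j k l = 0}

/-- `𝒮_tf`: closed and `d_μ ∗φ = 0` -/
def Stf : Set (Bracket 7) :=
  {μ | μ ∈ Sclosed ∧ ∀ i j k l p, d4 μ (fun a b c d => (psi a b c d : ℝ)) i j k l p = 0}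

/-- `N_μ`, the supremum of `F` over the closed, not torsion free `G₂`-structures on `S_μ` -/
noncomputable def N (μ : Bracket 7) : ℝ := sSup (F '' ((Orbit μ ∩ Sclosed) \ Stf))

/-- `M_μ`, the supremum of `F` over the (not Ricci flat) left invariant metrics on `S_μ` -/
noncomputable def M {n : ℕ} (μ : Bracket n) : ℝ := sSup (F '' {ν | ν ∈ Orbit μ ∧ Ric ν ≠ 0})

/-! ### Bridge to the helper files -/

open Pool.Agent.H787.SP R877.RN R877.RN.BASA

variable {n : ℕ}

lemma IsLie.asym {μ : Bracket n} (h : IsLie μ) : Asym μ := by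
  intro i j k
  have h1 := congrFun (h.skew (Pi.single i 1) (Pi.single j 1)) k
  have e1 : br μ (Pi.single i 1) (Pi.single j 1) = μ i j := Fl_basis μ i j
  have e2 : br μ (Pi.single j 1) (Pi.single i 1) = μ j i := Fl_basis μ j i
  rw [e1, e2] at h1
  exact h1

lemma IsLie.jac {μ : Bracket n} (h : IsLie μ) : Jac μ := jac_iff.2 h.jacobi

lemma derSeries_eq (μ : Bracket n) (k : ℕ) : derSeries μ k = DS μ k := by
  induction k with
  | zero => rfl
  | succ k ih =>
    show Submodule.span ℝ {z | ∃ x ∈ derSeries μ k, ∃ y ∈ derSeries μ k, z = br μ x y} = _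
    rw [ih]
    rfl

lemma IsSolv.solv {μ : Bracket n} (h : IsSolv μ) : Solv μ := by
  obtain ⟨k, hk⟩ := h.solvable
  exact ⟨k, by rw [← derSeries_eq, hk]⟩

lemma glAct_eq (h : GL (Fin n) ℝ) (μ : Bracket n) :
    glAct h μ = act (h : Matrix (Fin n) (Fin n) ℝ) μ := by
  funext i j
  rw [act_basis, ← Matrix.coe_units_inv]
  rfl

lemma GL_det (h : GL (Fin n) ℝ) : IsUnit (h : Matrix (Fin n) (Fin n) ℝ).det :=
  (Matrix.isUnit_iff_isUnit_det _).1 h.isUnit

lemma Ric_eq {μ : Bracket n} (h : IsLie μ) : Ric μ = Rc μ := ricL_eq h.asym h.jac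

lemma sum_sq_eq {μ : Bracket n} : ∑ j, ∑ k, (Rc μ j k) ^ 2 = (Rc μ * Rc μ).trace := by
  rw [tr_mul_eq_sum (Rc_symm μ), Fintype.sum_prod_type]
  exact Finset.sum_congr rfl fun i _ => Finset.sum_congr rfl fun j _ => by rw [pow_two]

lemma F_eq {μ : Bracket n} (h : IsLie μ) :
    F μ = (Rc μ).trace ^ 2 / (Rc μ * Rc μ).trace := by
  unfold F scal
  rw [Ric_eq h, sum_sq_eq]

lemma IsLie.act {μ : Bracket n} (h : IsLie μ) {c : Matrix (Fin n) (Fin n) ℝ}
    (hc : IsUnit c.det) : IsLie (R877.RN.act c μ) := by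
  constructor
  · intro x y
    exact asym_Fl (p_ASYMACT n c μ h.asym) x y
  · exact jac_iff.1 (p_JACT n c μ hc h.jac)

lemma IsSolvsoliton.sol {μ : Bracket n} (h : IsSolvsoliton μ) :
    ∃ (g : ℝ) (D : Matrix (Fin n) (Fin n) ℝ), Sol μ g D := by
  obtain ⟨hs, c, D, hD, he⟩ := h
  refine ⟨-c, D, ⟨hs.lie.asym, hs.lie.jac, der_iff.2 hD, ?_⟩⟩
  rw [← Ric_eq hs.lie, he, neg_smul, neg_neg]

lemma trace_sq_pos {μ : Bracket n} (h : Rc μ ≠ 0) : 0 < (Rc μ * Rc μ).trace := by
  rcases (tr_sq_nonneg (Rc_symm μ)).eq_or_lt with h1 | h1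
  · exact absurd (tr_sq_eq_zero (Rc_symm μ) h1.symm.le) h
  · exact h1

/-- a solvsoliton which is not Ricci flat maximises `F` on its orbit -/
theorem max_orbit {μ lam : Bracket n} (hlam : lam ∈ Orbit μ) (hs : IsSolvsoliton lam)
    (hne : Ric lam ≠ 0) {ν : Bracket n} (hν : ν ∈ Orbit μ) : F ν ≤ F lam := by
  obtain ⟨h, rfl⟩ := hlam
  obtain ⟨k, rfl⟩ := hν
  have hk : glAct k μ = R877.RN.act ((k * h⁻¹ : GL (Fin n) ℝ) : Matrix (Fin n) (Fin n) ℝ)
      (glAct h μ) := by
    rw [glAct_eq, glAct_eq, ← p_ACTMUL n _ _ μ (GL_det _) (GL_det _)]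
    congr 1
    rw [← Units.val_mul, inv_mul_cancel_right]
  rw [hk]
  set lam := glAct h μ with hlam
  set c : Matrix (Fin n) (Fin n) ℝ := ((k * h⁻¹ : GL (Fin n) ℝ) : Matrix (Fin n) (Fin n) ℝ)
    with hc
  have hcd : IsUnit c.det := GL_det _
  obtain ⟨g, D, hsol⟩ := hs.sol
  have hLie : IsLie lam := hs.1.lie
  have hsolv : Solv lam := hs.1.solv
  have hLie' : IsLie (R877.RN.act c lam) := hLie.act hcd
  rw [Ric_eq hLie] at hne
  have hq := trace_sq_pos hne
  have hsc := scal_nonpos hLie.asym hLie.jac hsolv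
  have h2 := hsol.tr_Rc2
  have hg : 0 < g := by
    rw [h2] at hq
    by_contra hle
    push Not at hle
    have := mul_nonneg_of_nonpos_of_nonpos hle hsc
    linarith
  have hneg : (Rc (R877.RN.act c lam)).trace ≤ 0 :=
    scal_nonpos hLie'.asym hLie'.jac (Solv_act hcd hsolv)
  have hmain := main_ineq hsol hg hsolv hcd hneg
  rw [F_eq hLie', F_eq hLie]
  have hF : (Rc lam).trace ^ 2 / (Rc lam * Rc lam).trace = -(Rc lam).trace / g := by
    have hs0 : (Rc lam).trace ≠ 0 := by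
      intro h0
      rw [h2, h0, mul_zero, neg_zero] at hq
      exact lt_irrefl _ hq
    rw [h2]
    field_simp
  rw [hF]
  rcases (tr_sq_nonneg (Rc_symm (R877.RN.act c lam))).eq_or_lt with h1 | h1
  · rw [← h1, div_zero]
    exact div_nonneg (by linarith) hg.le
  · rw [div_le_div_iff₀ h1 hg]
    have h3 : g * ((Rc (R877.RN.act c lam)).trace ^ 2 * g)
        ≤ g * (-(Rc lam).trace * (Rc (R877.RN.act c lam) * Rc (R877.RN.act c lam)).trace) := by
      calc g * ((Rc (R877.RN.act c lam)).trace ^ 2 * g)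
          = (g * (Rc (R877.RN.act c lam)).trace) ^ 2 := by ring
        _ ≤ _ := hmain
        _ = _ := by ring
    exact le_of_mul_le_mul_left h3 hg

/-- In every dimension, a solvsoliton which is not Ricci flat maximises `F` among all left
invariant metrics on its solvable Lie group. -/
theorem riemannian_max {μ lam : Bracket n} (hlam : lam ∈ Orbit μ) (hs : IsSolvsoliton lam)
    (hne : Ric lam ≠ 0) : IsGreatest (F '' {ν | ν ∈ Orbit μ ∧ Ric ν ≠ 0}) (F lam) := by
  refine ⟨⟨lam, ⟨hlam, hne⟩, rfl⟩, ?_⟩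
  rintro _ ⟨ν, ⟨hν, -⟩, rfl⟩
  exact max_orbit hlam hs hne hν

/-- **Answer to Q1 (affirmative).** For `μ ∈ 𝒮_closed` (unimodular or not) every solvsoliton
`lam ∈ (GL₇(ℝ)·μ ∩ 𝒮_closed) \ 𝒮_tf` satisfies `F(lam) = N_μ` (and the supremum `N_μ` is a
maximum, attained at `lam`); moreover `F(lam) = M_μ`, the supremum of `F` over all left invariant
metrics on `S_μ`. -/
theorem result (μ : Bracket 7) (_hμ : μ ∈ Sclosed) (lam : Bracket 7)
    (hlam : lam ∈ (Orbit μ ∩ Sclosed) \ Stf) (hs : IsSolvsoliton lam) :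
    IsGreatest (F '' ((Orbit μ ∩ Sclosed) \ Stf)) (F lam) ∧ F lam = N μ ∧ F lam = M μ := by
  have hne : Ric lam ≠ 0 := by
    intro h0
    have hLie : IsLie lam := hlam.1.2.1.lie
    have hn : ¬ ∀ i j k l p, dd4 lam psiR i j k l p = 0 := by
      intro hall
      exact hlam.2 ⟨hlam.1.2, hall⟩
    have hneg := g2_neg hLie.asym hLie.jac hlam.1.2.2 hn
    rw [← Ric_eq hLie, h0, Matrix.trace_zero] at hneg
    exact lt_irrefl _ hneg
  have hgr : IsGreatest (F '' ((Orbit μ ∩ Sclosed) \ Stf)) (F lam) := by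
    refine ⟨⟨lam, hlam, rfl⟩, ?_⟩
    rintro _ ⟨ν, hν, rfl⟩
    exact max_orbit hlam.1.1 hs hne hν.1.1
  exact ⟨hgr, hgr.csSup_eq.symm, (riemannian_max hlam.1.1 hs hne).csSup_eq.symm⟩

end Pool.Agent.Results.MP_64d93e_gt.SolvsolitonsAttainSup
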